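import Pool.Agent.Helper192.Hardy.G
import Pool.Agent.Helper192.Hardy.I

set_option autoImplicit false

open MeasureTheory AddCircle Filter Topology
open scoped ENNReal

namespace Pool.Agent.Results.MP_984ac2_an.HardyConstant

/-- The Lebesgue space `L^p` of the circle `ℝ / 2πℤ` with normalised Lebesgue measure. -/
def LpCircle (p : ℝ≥0∞) : Type := Lp ℂ p (haarAddCircle : Measure (AddCircle (2 * Real.pi)))

/-- `L^p` carries its usual norm. -/
noncomputable instance instNorm (p : ℝ≥0∞) [Fact (1 ≤ p)] : NormedAddCommGroup (LpCircle p) :=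
  Lp.instNormedAddCommGroup (α := AddCircle (2 * Real.pi)) (E := ℂ) (μ := haarAddCircle)

/-- `L^p` is a complex normed space. -/
noncomputable instance instSpace (p : ℝ≥0∞) [Fact (1 ≤ p)] : NormedSpace ℂ (LpCircle p) :=
  Lp.instNormedSpace (α := AddCircle (2 * Real.pi)) (E := ℂ) (μ := haarAddCircle)

/-- The Fourier coefficient `f̂(k)` of `f ∈ L^p`. -/
noncomputable def coeff (p : ℝ≥0∞) : LpCircle p → ℤ → ℂ :=
  fun (f : Lp ℂ p (haarAddCircle : Measure (AddCircle (2 * Real.pi)))) k => fourierCoeff f k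

/-- The constant function `1` in `L^p`. -/
noncomputable def one (p : ℝ≥0∞) [Fact (1 ≤ p)] : LpCircle p :=
  (fourierLp (T := 2 * Real.pi) p 0 : Lp ℂ p (haarAddCircle : Measure (AddCircle (2 * Real.pi))))

theorem coeff_add (p : ℝ≥0∞) [Fact (1 ≤ p)] (f g : LpCircle p) (k : ℤ) (hf : coeff p f k = 0)
    (hg : coeff p g k = 0) : coeff p (f + g) k = 0 := by
  have h := (Pool.Agent.Helper192.Hp.coeffL p k).map_add f g
  refine Eq.trans h ?_
  refine Eq.trans (congrArg₂ (· + ·) hf hg) ?_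
  exact add_zero 0

theorem coeff_zero (p : ℝ≥0∞) [Fact (1 ≤ p)] (k : ℤ) : coeff p 0 k = 0 :=
  (Pool.Agent.Helper192.Hp.coeffL p k).map_zero

theorem coeff_smul (p : ℝ≥0∞) [Fact (1 ≤ p)] (c : ℂ) (f : LpCircle p) (k : ℤ) (hf : coeff p f k = 0) :
    coeff p (c • f) k = 0 := by
  have h := (Pool.Agent.Helper192.Hp.coeffL p k).map_smul c f
  refine Eq.trans h ?_
  refine Eq.trans (congrArg (fun z => c • z) hf) ?_
  exact smul_zero c

/-- The Hardy space `H^p`: the `f ∈ L^p` with `f̂(k) = 0` for all `k < 0`. -/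
noncomputable def Hardy (p : ℝ≥0∞) [Fact (1 ≤ p)] : Submodule ℂ (LpCircle p) where
  carrier := {f | ∀ k : ℤ, k < 0 → coeff p f k = 0}
  add_mem' := fun {f g} hf hg k hk => coeff_add p f g k (hf k hk) (hg k hk)
  zero_mem' := fun k _ => coeff_zero p k
  smul_mem' := fun c f hf k hk => coeff_smul p c f k (hf k hk)

/-- The bounded compact approximation constant `M(X)`: the infimum of `sup_n ‖I - T_n‖` over the sequences
of compact operators `T_n` on `X` that converge strongly to the identity. -/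
noncomputable def bcapConst (X : Type) [NormedAddCommGroup X] [NormedSpace ℂ X] : ℝ :=
  sInf {s | ∃ T : ℕ → X →L[ℂ] X, (∀ n, IsCompactOperator (T n)) ∧
    (∀ x, Tendsto (fun n => T n x) atTop (𝓝 x)) ∧
    IsLUB (Set.range fun n => ‖ContinuousLinearMap.id ℂ X - T n‖) s}

/-- `M(H^p)` -/
noncomputable def MHardy (p : ℝ≥0∞) [Fact (1 ≤ p)] : ℝ := bcapConst (Hardy p)

/-- The norm of `I - K₀` on `H^p`, where `K₀ f = f̂(0)`: the least `C ≥ 0` with
`‖f - f̂(0)‖ ≤ C ‖f‖` for all `f ∈ H^p`. -/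
noncomputable def normIK0 (p : ℝ≥0∞) [Fact (1 ≤ p)] : ℝ :=
  sInf {C : ℝ | 0 ≤ C ∧ ∀ f ∈ Hardy p, ‖f - coeff p f 0 • one p‖ ≤ C * ‖f‖}

theorem normIK0_eq (p : ℝ≥0∞) [Fact (1 ≤ p)] : normIK0 p = ‖1 - Pool.Agent.Helper192.Hp.K0 p‖ := by
  rw [ContinuousLinearMap.norm_def]
  unfold normIK0
  congr 1
  ext C
  constructor
  · rintro ⟨h0, h⟩
    exact ⟨h0, fun f => h f.1 f.2⟩
  · rintro ⟨h0, h⟩
    exact ⟨h0, fun f hf => h ⟨f, hf⟩⟩

theorem MHardy_eq (p : ℝ≥0∞) [Fact (1 ≤ p)] (hp : p ≠ ∞) : MHardy p = ‖1 - Pool.Agent.Helper192.Hp.K0 p‖ :=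
  Pool.Agent.Helper192.Hp.bcapConst_eq hp

/-- For every `1 ≤ p < ∞` the constant `M(H^p)` equals the norm of `I - K₀` on `H^p`.
Explicitly `M(H^1) = 2/√3`, `M(H^2) = 1` and `M(H^4) = ((1+√5)/2)^{1/4}`. -/
theorem result :
    (∀ (p : ℝ≥0∞) [Fact (1 ≤ p)], p ≠ ∞ → MHardy p = normIK0 p) ∧
    MHardy 1 = 2 / Real.sqrt 3 ∧
    MHardy 2 = 1 ∧
    (∀ [Fact ((1 : ℝ≥0∞) ≤ 4)], MHardy 4 = ((1 + Real.sqrt 5) / 2) ^ ((1 : ℝ) / 4)) := by
  refine ⟨?_, ?_, ?_, ?_⟩
  · intro p _ hp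
    rw [MHardy_eq p hp, normIK0_eq]
  · rw [MHardy_eq 1 (by norm_num)]
    exact Pool.Agent.Helper192.Hp.norm_K0_one
  · rw [MHardy_eq 2 (by norm_num)]
    exact Pool.Agent.Helper192.Hp.norm_K0_two
  · intro _
    rw [MHardy_eq 4 (by norm_num)]
    exact Pool.Agent.Helper192.Hp.norm_K0_four

end Pool.Agent.Results.MP_984ac2_an.HardyConstant
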